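import Mathlib
import Pool.Agent.Q251.MA.RSd
import Pool.Agent.Q251.MA.Sup

set_option autoImplicit false

/-! The linear bound for monochromatic progressions in the Rudin-Shapiro sequence (full answer). -/

namespace Pool.Agent.Results.MP_7fcbce_co.HalfBound

/-- the number of occurrences (with overlaps) of the block `11` in the binary expansion of `n`: the number of `i` for
which the binary digits number `i` and `i + 1` of `n` are both `1` -/
noncomputable def e₁₁ (n : ℕ) : ℕ := {i : ℕ | n.testBit i = true ∧ n.testBit (i + 1) = true}.ncard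

/-- the Rudin-Shapiro sequence in 0/1 form -/
noncomputable def r (n : ℕ) : ℕ := e₁₁ n % 2

/-- the number of terms of the longest monochromatic progression with first term `n` and difference `d` -/
noncomputable def A₁ (n d : ℕ) : ℕ∞ := ⨆ (l : ℕ) (_ : ∀ j < l, r (n + j * d) = r n), (l : ℕ∞)

/-- the maximal number of terms of a monochromatic progression of difference `d` -/
noncomputable def A (d : ℕ) : ℕ∞ := ⨆ n : ℕ, A₁ n d

/-- (1) `2 A d ≤ d + 7` for all `d ≥ 23`; (2) equality holds exactly for `d = 2 ^ k - 1` with `k ≥ 5` odd; (3) for odd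
`d` with `2 ^ (K + 1) < d < 2 ^ (K + 2) - 1`, `K ≥ 3`, even `A d ≤ 2 ^ K + 6`. -/
theorem result :
    (∀ d : ℕ, 23 ≤ d → 2 * A d ≤ (d + 7 : ℕ)) ∧
    (∀ d : ℕ, 23 ≤ d → (2 * A d = (d + 7 : ℕ) ↔ ∃ k : ℕ, 5 ≤ k ∧ Odd k ∧ d = 2 ^ k - 1)) ∧
    (∀ K d : ℕ, 3 ≤ K → Odd d → 2 ^ (K + 1) < d → d < 2 ^ (K + 2) - 1 → A d ≤ (2 ^ K + 6 : ℕ)) := by
  have ht : ∀ n, r n = Q251.MA.G 1 n % 2 := fun n => by rw [r, e₁₁, Q251.MA.blocks_eq]
  have up : ∀ d m : ℕ, A d ≤ (m : ℕ∞) → 2 * A d ≤ ((2 * m : ℕ) : ℕ∞) := by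
    intro d m h
    rw [Nat.cast_mul]
    exact mul_le_mul_right h _
  refine ⟨?_, ?_, ?_⟩
  · intro d hd
    have h1 : A d ≤ ((d + 7) / 2 : ℕ) := Q251.MA.sup_le ht (Q251.MA.RS.bound hd).1
    refine (up d _ h1).trans ?_
    rw [Nat.cast_le]
    omega
  · intro d hd
    constructor
    · intro h
      by_contra hns
      have h0 := (Q251.MA.RS.bound hd).2 hns
      have h1 : A d ≤ ((d + 8) / 2 - 1 : ℕ) := by
        apply Q251.MA.sup_le ht
        have e : (d + 8) / 2 - 1 + 1 = (d + 8) / 2 := by omega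
        rw [e]
        exact h0
      have h2 := up d _ h1
      rw [h, Nat.cast_le] at h2
      omega
    · rintro ⟨k, hk, hko, hdk⟩
      have hp : 1 ≤ 2 ^ (k - 1) := Nat.one_le_two_pow
      have hp2 : 2 ^ k = 2 * 2 ^ (k - 1) := by
        obtain ⟨k', rfl⟩ : ∃ k', k = k' + 1 := ⟨k - 1, by omega⟩
        rw [Nat.add_sub_cancel]
        ring
      have hne : ¬ Even k := Nat.not_even_iff_odd.2 hko
      have h1 := Q251.MA.RS.sp_up hk
      have h2 := Q251.MA.RS.sp_low hk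
      rw [if_neg hne, ← hdk] at h1 h2
      have h3 : A d = (2 ^ (k - 1) + 3 : ℕ) := le_antisymm (Q251.MA.sup_le ht h1) (Q251.MA.le_sup ht h2)
      rw [h3, ← Nat.cast_ofNat, ← Nat.cast_mul]
      congr 1
      omega
  · intro K d hK hd h1 h2
    obtain ⟨K', rfl⟩ : ∃ K', K = K' + 1 := ⟨K - 1, by omega⟩
    exact Q251.MA.sup_le ht (Q251.MA.RS.cases_bound (by omega) hd h1 (by
      have : 2 ^ (K' + 1 + 2) = 2 ^ (K' + 3) := by congr 1
      omega)).1

end Pool.Agent.Results.MP_7fcbce_co.HalfBound
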